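import Mathlib

/-!
# Tiling the plane by pairwise non-similar integer-sided triangles

A rectangle with sides `s` and `a + b`, where `s ^ 2 + a ^ 2 = c ^ 2` and `s ^ 2 + b ^ 2 = d ^ 2`,
is cut by a point of a side of length `a + b` into triangles with sides `(s, a, c)`, `(s, b, d)`
and `(d, c, a + b)`. For `s = 4 k` with `k` odd we take `a = 4 k ^ 2 - 1`, `b = k ^ 2 - 4`, so that
`a + b = 5 (k ^ 2 - 1)` is divisible by `8`. Starting from the rectangle with sides `12` and
`44` (`a = 35`, `b = 9`) we attach such rectangles one after the other in a spiral: the next one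
is attached along the whole longer side `4 k` of the present rectangle, and the new side
is again of the form `4 k'` with `k' > k` odd. The values of `k` are distinct, and
this makes all the triangles pairwise non-similar.
-/

set_option autoImplicit false

namespace Pool.Agent.Results.MP_0d7d47_co.SpiralTiling

open Set

/-- The Euclidean plane. -/
abbrev Plane : Type := EuclideanSpace ℝ (Fin 2)

/-- The side of the `n`-th rectangle along which the next one is attached. -/
noncomputable def s : ℕ → ℝ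
  | 0 => 12
  | 1 => 44
  | (n + 2) => s n + 5 * (s (n + 1) ^ 2 / 16 - 1)

/-- The first leg. -/
noncomputable def a : ℕ → ℝ
  | 0 => 35
  | (n + 1) => s (n + 1) ^ 2 / 4 - 1

/-- The second leg. -/
noncomputable def b : ℕ → ℝ
  | 0 => 9
  | (n + 1) => s (n + 1) ^ 2 / 16 - 4

/-- The hypotenuse over the legs `s`, `a`. -/
noncomputable def c : ℕ → ℝ
  | 0 => 37
  | (n + 1) => s (n + 1) ^ 2 / 4 + 1

/-- The hypotenuse over the legs `s`, `b`. -/
noncomputable def d : ℕ → ℝ
  | 0 => 15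
  | (n + 1) => s (n + 1) ^ 2 / 16 + 4

/-- The other side of the `n`-th rectangle. -/
noncomputable def w (n : ℕ) : ℝ := a n + b n

/-- The spiral: the `n`-th rectangle lies between the coordinates `Q n` and `Q (n + 4)` in the
direction `n` (modulo `4`). -/
noncomputable def Q : ℕ → ℝ
  | 0 => -44
  | 1 => 12
  | 2 => 44
  | 3 => 0
  | (n + 4) => Q n + w n

/-- Cosine of `n` right angles. -/
noncomputable def cs : ℕ → ℝ
  | 0 => 1
  | 1 => 0
  | (n + 2) => - cs n

theorem s_step (n : ℕ) : s (n + 2) = s n + w (n + 1) := by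
  rw [s, w, a, b]; ring

theorem Q_step (n : ℕ) : Q (n + 4) = Q n + w n := by
  rw [Q]

theorem Q_sum : ∀ n : ℕ, Q (n + 1) + Q (n + 3) = s n
  | 0 => by norm_num [Q, s]
  | 1 => by
      have h : Q (1 + 3) = Q 0 + w 0 := Q_step 0
      rw [h]
      norm_num [Q, s, w, a, b]
  | (n + 2) => by
      have h1 := Q_sum n
      have h2 : Q (n + 2 + 3) = Q (n + 1) + w (n + 1) := Q_step (n + 1)
      have h3 := s_step n
      have h4 : Q (n + 2 + 1) = Q (n + 3) := rfl
      rw [h2, h3, h4]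
      linarith

/-- All `s n` are congruent to `4` modulo `8`. -/
theorem s_form : ∀ n : ℕ, ∃ j : ℕ, s n = 8 * j + 4
  | 0 => ⟨1, by norm_num [s]⟩
  | 1 => ⟨5, by norm_num [s]⟩
  | (n + 2) => by
      obtain ⟨j, hj⟩ := s_form n
      obtain ⟨i, hi⟩ := s_form (n + 1)
      obtain ⟨t, ht⟩ := Nat.even_mul_succ_self i
      refine ⟨j + 5 * t, ?_⟩
      rw [s, hj, hi]
      have h : (i : ℝ) * (i + 1) = t + t := by exact_mod_cast ht
      push_cast
      nlinarith [h]

theorem s_grow : ∀ n : ℕ, 12 ≤ s n ∧ 44 ≤ s (n + 1) ∧ s n < s (n + 1)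
  | 0 => by norm_num [s]
  | (n + 1) => by
      obtain ⟨h1, h2, h3⟩ := s_grow n
      have h4 : s (n + 1) < s (n + 2) := by
        rw [s]; nlinarith
      exact ⟨by linarith, by show 44 ≤ s (n + 2); linarith, h4⟩

theorem s_ge (n : ℕ) : 12 ≤ s n := (s_grow n).1

theorem s_ge' (n : ℕ) : 44 ≤ s (n + 1) := (s_grow n).2.1

theorem s_mono : StrictMono s := strictMono_nat_of_lt_succ fun n => (s_grow n).2.2

theorem pyth_a (n : ℕ) : s n ^ 2 + a n ^ 2 = c n ^ 2 := by
  cases n with
  | zero => norm_num [s, a, c]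
  | succ n => rw [a, c]; ring

theorem pyth_b (n : ℕ) : s n ^ 2 + b n ^ 2 = d n ^ 2 := by
  cases n with
  | zero => norm_num [s, b, d]
  | succ n => rw [b, d]; ring

theorem ineqs (n : ℕ) : 9 ≤ s n ∧ 9 ≤ a n ∧ 9 ≤ b n ∧ 0 < c n ∧ 0 < d n ∧ c n < w n ∧ d n < w n ∧
    44 ≤ w n := by
  cases n with
  | zero => norm_num [s, a, b, c, d, w]
  | succ n =>
      have h := s_ge' n
      have h2 : 44 * 44 ≤ s (n + 1) ^ 2 := by nlinarith
      rw [w, a, b, c, d]
      refine ⟨?_, ?_, ?_, ?_, ?_, ?_, ?_, ?_⟩ <;> nlinarith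

theorem nat_sides (n : ℕ) : (∃ m : ℕ, s n = m) ∧ (∃ m : ℕ, a n = m) ∧ (∃ m : ℕ, b n = m) ∧
    (∃ m : ℕ, c n = m) ∧ (∃ m : ℕ, d n = m) ∧ (∃ m : ℕ, w n = m) := by
  have key : (∃ m : ℕ, s n = m) ∧ (∃ m : ℕ, a n = m) ∧ (∃ m : ℕ, b n = m) ∧
    (∃ m : ℕ, c n = m) ∧ (∃ m : ℕ, d n = m) := by
    cases n with
    | zero =>
        exact ⟨⟨12, by norm_num [s]⟩, ⟨35, by norm_num [a]⟩, ⟨9, by norm_num [b]⟩,
          ⟨37, by norm_num [c]⟩, ⟨15, by norm_num [d]⟩⟩
    | succ n =>
        obtain ⟨j, hj⟩ := s_form (n + 1)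
        have h := s_ge' n
        have hj1 : 1 ≤ j := by
          by_contra hc
          have : j = 0 := by omega
          rw [this] at hj
          norm_num at hj
          linarith
        obtain ⟨i, rfl⟩ : ∃ i, j = i + 1 := ⟨j - 1, by omega⟩
        rw [a, b, c, d, hj]
        refine ⟨⟨8 * (i + 1) + 4, by push_cast; ring⟩, ⟨16 * (i + 1) ^ 2 + 16 * (i + 1) + 3, by push_cast; ring⟩,
          ⟨4 * i ^ 2 + 12 * i + 5, by push_cast; ring⟩,
          ⟨16 * (i + 1) ^ 2 + 16 * (i + 1) + 5, by push_cast; ring⟩,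
          ⟨4 * (i + 1) ^ 2 + 4 * (i + 1) + 5, by push_cast; ring⟩⟩
  obtain ⟨h1, ⟨m, hm⟩, ⟨k, hk⟩, h4, h5⟩ := key
  refine ⟨h1, ⟨m, hm⟩, ⟨k, hk⟩, h4, h5, ⟨m + k, ?_⟩⟩
  rw [w, hm, hk]; push_cast; ring

theorem Q_ge : ∀ n : ℕ, (11 : ℝ) * n - 100 ≤ Q n
  | 0 => by norm_num [Q]
  | 1 => by norm_num [Q]
  | 2 => by norm_num [Q]
  | 3 => by norm_num [Q]
  | (n + 4) => by
      have h := Q_ge n
      have h2 := (ineqs n).2.2.2.2.2.2.2
      rw [Q_step]; push_cast; linarith

theorem cs_sq : ∀ n : ℕ, cs n ^ 2 + cs (n + 1) ^ 2 = 1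
  | 0 => by norm_num [cs]
  | (n + 1) => by
      have h := cs_sq n
      have h2 : cs (n + 1 + 1) = - cs n := by rw [cs]
      rw [h2]; linarith [neg_sq (cs n)]

theorem cs_two (n : ℕ) : cs (n + 2) = - cs n := by rw [cs]

/-- The coordinate of `p` in the direction `n`. -/
noncomputable def X (n : ℕ) (p : Plane) : ℝ := p 0 * cs n - p 1 * cs (n + 1)

/-- The point with coordinates `x`, `y` in the directions `n`, `n + 1`. -/
noncomputable def F (n : ℕ) (x y : ℝ) : Plane :=
  !₂[x * cs n + y * cs (n + 1), -x * cs (n + 1) + y * cs n]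

theorem F_zero (n : ℕ) (x y : ℝ) : F n x y 0 = x * cs n + y * cs (n + 1) := by simp [F]

theorem F_one (n : ℕ) (x y : ℝ) : F n x y 1 = -x * cs (n + 1) + y * cs n := by simp [F]

theorem X_two (n : ℕ) (p : Plane) : X (n + 2) p = - X n p := by
  have h : cs (n + 2 + 1) = - cs (n + 1) := cs_two (n + 1)
  rw [X, X, cs_two, h]; ring

theorem X_F (n : ℕ) (x y : ℝ) : X n (F n x y) = x := by
  rw [X, F_zero, F_one]
  have h := cs_sq n
  linear_combination x * h

theorem X_F' (n : ℕ) (x y : ℝ) : X (n + 1) (F n x y) = y := by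
  rw [X, F_zero, F_one, show n + 1 + 1 = n + 2 from rfl, cs_two]
  have h := cs_sq n
  linear_combination y * h

theorem F_X (n : ℕ) (p : Plane) : p = F n (X n p) (X (n + 1) p) := by
  have h := cs_sq n
  ext i
  fin_cases i
  · show p 0 = F n (X n p) (X (n + 1) p) 0
    rw [F_zero, X, X, show n + 1 + 1 = n + 2 from rfl, cs_two]
    linear_combination (- p 0) * h
  · show p 1 = F n (X n p) (X (n + 1) p) 1
    rw [F_one, X, X, show n + 1 + 1 = n + 2 from rfl, cs_two]
    linear_combination (- p 1) * h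

theorem dist_F (n : ℕ) (x y x' y' r : ℝ) (hr : 0 ≤ r) (h : (x - x') ^ 2 + (y - y') ^ 2 = r ^ 2) :
    dist (F n x y) (F n x' y') = r := by
  rw [EuclideanSpace.dist_eq, Fin.sum_univ_two, F_zero, F_zero, F_one, F_one, Real.dist_eq,
    Real.dist_eq, sq_abs, sq_abs]
  have h2 := cs_sq n
  have h3 : (x * cs n + y * cs (n + 1) - (x' * cs n + y' * cs (n + 1))) ^ 2 +
      (-x * cs (n + 1) + y * cs n - (-x' * cs (n + 1) + y' * cs n)) ^ 2 = r ^ 2 := by
    rw [← h]
    linear_combination ((x - x') ^ 2 + (y - y') ^ 2) * h2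
  rw [h3, Real.sqrt_sq hr]


/-- The three corners of the `i`-th tile of the `n`-th rectangle. -/
noncomputable def V (n : ℕ) : Fin 3 → Fin 3 → Plane :=
  ![![F n (Q n) (Q (n + 1)), F n (Q n) (-Q (n + 3)), F n (Q n + a n) (-Q (n + 3))],
    ![F n (Q (n + 4)) (Q (n + 1)), F n (Q (n + 4)) (-Q (n + 3)), F n (Q n + a n) (-Q (n + 3))],
    ![F n (Q (n + 4)) (Q (n + 1)), F n (Q n + a n) (-Q (n + 3)), F n (Q n) (Q (n + 1))]]

/-- The side lengths `V 0 V 1`, `V 1 V 2`, `V 2 V 0`. -/
noncomputable def side (n : ℕ) : Fin 3 → Fin 3 → ℝ :=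
  ![![s n, a n, c n], ![s n, b n, d n], ![d n, c n, w n]]

theorem dists (n : ℕ) (i : Fin 3) : dist (V n i 0) (V n i 1) = side n i 0 ∧
    dist (V n i 1) (V n i 2) = side n i 1 ∧ dist (V n i 2) (V n i 0) = side n i 2 := by
  obtain ⟨h1, h2, h3, h4, h5, h6, h7, h8⟩ := ineqs n
  have hQ := Q_sum n
  have hQ2 := Q_step n
  have hp := pyth_a n
  have hp2 := pyth_b n
  have hw : w n = a n + b n := rfl
  fin_cases i
  · refine ⟨?_, ?_, ?_⟩
    · show dist (F n (Q n) (Q (n + 1))) (F n (Q n) (-Q (n + 3))) = s n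
      exact dist_F _ _ _ _ _ _ (by linarith) (by rw [← hQ]; ring)
    · show dist (F n (Q n) (-Q (n + 3))) (F n (Q n + a n) (-Q (n + 3))) = a n
      exact dist_F _ _ _ _ _ _ (by linarith) (by ring)
    · show dist (F n (Q n + a n) (-Q (n + 3))) (F n (Q n) (Q (n + 1))) = c n
      exact dist_F _ _ _ _ _ _ (by linarith) (by rw [← hp, ← hQ]; ring)
  · refine ⟨?_, ?_, ?_⟩
    · show dist (F n (Q (n + 4)) (Q (n + 1))) (F n (Q (n + 4)) (-Q (n + 3))) = s n
      exact dist_F _ _ _ _ _ _ (by linarith) (by rw [← hQ]; ring)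
    · show dist (F n (Q (n + 4)) (-Q (n + 3))) (F n (Q n + a n) (-Q (n + 3))) = b n
      exact dist_F _ _ _ _ _ _ (by linarith) (by rw [hQ2, hw]; ring)
    · show dist (F n (Q n + a n) (-Q (n + 3))) (F n (Q (n + 4)) (Q (n + 1))) = d n
      exact dist_F _ _ _ _ _ _ (by linarith) (by rw [← hp2, ← hQ, hQ2, hw]; ring)
  · refine ⟨?_, ?_, ?_⟩
    · show dist (F n (Q (n + 4)) (Q (n + 1))) (F n (Q n + a n) (-Q (n + 3))) = d n
      exact dist_F _ _ _ _ _ _ (by linarith) (by rw [← hp2, ← hQ, hQ2, hw]; ring)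
    · show dist (F n (Q n + a n) (-Q (n + 3))) (F n (Q n) (Q (n + 1))) = c n
      exact dist_F _ _ _ _ _ _ (by linarith) (by rw [← hp, ← hQ]; ring)
    · show dist (F n (Q n) (Q (n + 1))) (F n (Q (n + 4)) (Q (n + 1))) = w n
      exact dist_F _ _ _ _ _ _ (by linarith) (by rw [hQ2]; ring)

theorem side_ineq (n : ℕ) (i : Fin 3) : 0 < side n i 0 ∧ 0 < side n i 1 ∧
    side n i 0 < side n i 2 ∧ side n i 1 < side n i 2 ∧ side n i 2 < side n i 0 + side n i 1 := by
  obtain ⟨h1, h2, h3, h4, h5, h6, h7, h8⟩ := ineqs n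
  have hp := pyth_a n
  have hp2 := pyth_b n
  have hw : w n = a n + b n := rfl
  fin_cases i
  · show 0 < s n ∧ 0 < a n ∧ s n < c n ∧ a n < c n ∧ c n < s n + a n
    refine ⟨by linarith, by linarith, ?_, ?_, ?_⟩ <;> nlinarith
  · show 0 < s n ∧ 0 < b n ∧ s n < d n ∧ b n < d n ∧ d n < s n + b n
    refine ⟨by linarith, by linarith, ?_, ?_, ?_⟩ <;> nlinarith
  · show 0 < d n ∧ 0 < c n ∧ d n < w n ∧ c n < w n ∧ w n < d n + c n
    refine ⟨by linarith, by linarith, by linarith, by linarith, ?_⟩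
    have e1 : a n < c n := by nlinarith
    have e2 : b n < d n := by nlinarith
    rw [hw]; linarith

/-- Strict triangle inequalities give affine independence. -/
theorem indep (P : Fin 3 → Plane) (x y z : ℝ) (h01 : dist (P 0) (P 1) = x)
    (h12 : dist (P 1) (P 2) = y) (h20 : dist (P 2) (P 0) = z) 
    (hxz : x < z) (hyz : y < z) (hz : z < x + y) : AffineIndependent ℝ P := by
  rw [affineIndependent_iff_not_collinear]
  intro hc
  have hr : Set.range P = {P 0, P 1, P 2} := by
    ext q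
    constructor
    · rintro ⟨i, rfl⟩
      fin_cases i <;> simp
    · rintro (h | h | h)
      · exact ⟨0, h.symm⟩
      · exact ⟨1, h.symm⟩
      · exact ⟨2, h.symm⟩
  rw [hr] at hc
  rcases hc.wbtw_or_wbtw_or_wbtw with h | h | h
  · have := h.dist_add_dist
    rw [h01, h12, dist_comm (P 0) (P 2), h20] at this
    linarith
  · have := h.dist_add_dist
    rw [h12, h20, dist_comm (P 1) (P 0), h01] at this
    linarith
  · have := h.dist_add_dist
    rw [h20, h01, dist_comm (P 2) (P 1), h12] at this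
    linarith

/-- The tiles. -/
noncomputable def T (t : ℕ × Fin 3) : Affine.Triangle ℝ Plane :=
  ⟨V t.1 t.2, by
    obtain ⟨h1, h2, h3⟩ := dists t.1 t.2
    obtain ⟨_, _, g3, g4, g5⟩ := side_ineq t.1 t.2
    exact indep _ _ _ _ h1 h2 h3 g3 g4 g5⟩

/-- Linear functionals. -/
noncomputable def L (u v : ℝ) (p : Plane) : ℝ := u * p 0 + v * p 1

theorem L_lin (u v : ℝ) : IsLinearMap ℝ (L u v) where
  map_add p q := by simp [L]; ring
  map_smul r p := by simp [L]; ring

theorem hull_le (P : Fin 3 → Plane) (u v r : ℝ) (h : ∀ i, L u v (P i) ≤ r) :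
    ∀ p ∈ convexHull ℝ (Set.range P), L u v p ≤ r := by
  intro p hp
  have h1 : Convex ℝ {q | L u v q ≤ r} := convex_halfSpace_le (L_lin u v) r
  have h2 : Set.range P ⊆ {q | L u v q ≤ r} := by
    rintro _ ⟨i, rfl⟩
    exact h i
  exact convexHull_min h2 h1 hp

theorem hull_ge (P : Fin 3 → Plane) (u v r : ℝ) (h : ∀ i, r ≤ L u v (P i)) :
    ∀ p ∈ convexHull ℝ (Set.range P), r ≤ L u v p := by
  intro p hp
  have h1 : Convex ℝ {q | r ≤ L u v q} := convex_halfSpace_ge (L_lin u v) r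
  have h2 : Set.range P ⊆ {q | r ≤ L u v q} := by
    rintro _ ⟨i, rfl⟩
    exact h i
  exact convexHull_min h2 h1 hp

/-- Sets separated by a line have disjoint interiors. -/
theorem sep (A B : Set Plane) (u v r : ℝ) (huv : 0 < u ^ 2 + v ^ 2) (hA : ∀ p ∈ A, L u v p ≤ r)
    (hB : ∀ p ∈ B, r ≤ L u v p) : Disjoint (interior A) (interior B) := by
  rw [Set.disjoint_left]
  intro p hpA hpB
  have ho : IsOpen (interior A ∩ interior B) := isOpen_interior.inter isOpen_interior
  obtain ⟨ε, hε, hb⟩ := Metric.isOpen_iff.1 ho p ⟨hpA, hpB⟩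
  set m : Plane := !₂[u, v] with hm
  have hm0 : m 0 = u := by simp [hm]
  have hm1 : m 1 = v := by simp [hm]
  set δ : ℝ := ε / (2 * (‖m‖ + 1)) with hδ
  have hδ0 : 0 < δ := by positivity
  have hin : p + δ • m ∈ Metric.ball p ε := by
    rw [Metric.mem_ball, dist_eq_norm, add_sub_cancel_left, norm_smul, Real.norm_of_nonneg hδ0.le]
    have h1 : δ * ‖m‖ ≤ δ * (‖m‖ + 1) := by nlinarith
    have h2 : δ * (‖m‖ + 1) = ε / 2 := by
      rw [hδ]; field_simp
    linarith
  have h3 := hb hin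
  have h4 := hA _ (interior_subset h3.1)
  have h5 := hB p (interior_subset hpB)
  have h6 : L u v (p + δ • m) = L u v p + δ * (u ^ 2 + v ^ 2) := by
    simp only [L, PiLp.add_apply, PiLp.smul_apply, smul_eq_mul, hm0, hm1]; ring
  rw [h6] at h4
  nlinarith [mul_pos hδ0 huv]


/-- `X n` as a functional. -/
theorem X_eq (n : ℕ) (p : Plane) : X n p = L (cs n) (-cs (n + 1)) p := by
  rw [X, L]; ring

/-- A combination of `X n` and `X (n + 1)` as a functional. -/
theorem XX_eq (n : ℕ) (α β : ℝ) (p : Plane) : α * X n p + β * X (n + 1) p =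
    L (α * cs n + β * cs (n + 1)) (-α * cs (n + 1) + β * cs n) p := by
  rw [X, X, L, show n + 1 + 1 = n + 2 from rfl, cs_two]; ring

theorem XX_pos (n : ℕ) (α β : ℝ) (h : 0 < α ^ 2 + β ^ 2) :
    0 < (α * cs n + β * cs (n + 1)) ^ 2 + (-α * cs (n + 1) + β * cs n) ^ 2 := by
  have h2 := cs_sq n
  have h3 : (α * cs n + β * cs (n + 1)) ^ 2 + (-α * cs (n + 1) + β * cs n) ^ 2 =
      α ^ 2 + β ^ 2 := by linear_combination (α ^ 2 + β ^ 2) * h2
  rw [h3]; exact h

/-- The extreme coordinates of the `n`-th rectangle. -/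
theorem V_bounds (n : ℕ) (i j : Fin 3) : Q n ≤ X n (V n i j) ∧ X n (V n i j) ≤ Q (n + 4) ∧
    -Q (n + 3) ≤ X (n + 1) (V n i j) ∧ X (n + 1) (V n i j) ≤ Q (n + 1) := by
  obtain ⟨h1, h2, h3, h4, h5, h6, h7, h8⟩ := ineqs n
  have hQ := Q_sum n
  have hQ2 := Q_step n
  have hw : w n = a n + b n := rfl
  have key : ∀ x y : ℝ, Q n ≤ x → x ≤ Q (n + 4) → -Q (n + 3) ≤ y → y ≤ Q (n + 1) →
      Q n ≤ X n (F n x y) ∧ X n (F n x y) ≤ Q (n + 4) ∧
    -Q (n + 3) ≤ X (n + 1) (F n x y) ∧ X (n + 1) (F n x y) ≤ Q (n + 1) := by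
    intro x y g1 g2 g3 g4
    rw [X_F, X_F']
    exact ⟨g1, g2, g3, g4⟩
  fin_cases i <;> fin_cases j <;>
    exact key _ _ (by linarith) (by linarith) (by linarith) (by linarith)

/-- The `n`-th stage. -/
def R (n : ℕ) : Set Plane :=
  {p | X n p ≤ Q n ∧ X (n + 1) p ≤ Q (n + 1) ∧ X (n + 2) p ≤ Q (n + 2) ∧ X (n + 3) p ≤ Q (n + 3)}

theorem X_four (n : ℕ) (p : Plane) : X (n + 4) p = X n p := by
  rw [show n + 4 = n + 2 + 2 from rfl, X_two, X_two, neg_neg]

theorem Q_nonneg (n : ℕ) : 0 ≤ Q n + Q (n + 2) := by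
  cases n with
  | zero => norm_num [Q]
  | succ n =>
      have h := Q_sum n
      have h2 := s_ge n
      show 0 ≤ Q (n + 1) + Q (n + 3)
      linarith

theorem V_mem_R (n : ℕ) (i j : Fin 3) : V n i j ∈ R (n + 1) := by
  obtain ⟨h1, h2, h3, h4⟩ := V_bounds n i j
  refine ⟨h4, ?_, ?_, ?_⟩
  · show X (n + 2) _ ≤ Q (n + 2)
    rw [X_two]
    have := Q_nonneg n
    linarith
  · show X (n + 1 + 2) _ ≤ Q (n + 3)
    rw [X_two]
    linarith
  · show X (n + 4) _ ≤ Q (n + 4)
    rw [X_four]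
    exact h2

theorem R_mono (n : ℕ) : R n ⊆ R (n + 1) := by
  rintro p ⟨h1, h2, h3, h4⟩
  refine ⟨h2, h3, h4, ?_⟩
  show X (n + 4) _ ≤ Q (n + 4)
  rw [X_four, Q_step]
  have := (ineqs n).2.2.2.2.2.2.2
  linarith

theorem V_le (m n : ℕ) (hmn : m < n) (i j : Fin 3) : X n (V m i j) ≤ Q n := by
  have h : R (m + 1) ⊆ R n := monotone_nat_of_le_succ R_mono hmn
  exact (h (V_mem_R m i j)).1

theorem disj_lt (m n : ℕ) (hmn : m < n) (i j : Fin 3) :
    Disjoint (interior (convexHull ℝ (Set.range (V m i))))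
      (interior (convexHull ℝ (Set.range (V n j)))) := by
  refine sep _ _ (cs n) (-cs (n + 1)) (Q n) ?_ ?_ ?_
  · have := cs_sq n
    rw [neg_sq, this]; exact one_pos
  · refine hull_le _ _ _ _ fun k => ?_
    rw [← X_eq]
    exact V_le m n hmn i k
  · refine hull_ge _ _ _ _ fun k => ?_
    rw [← X_eq]
    exact (V_bounds n j k).1

theorem disj_AB (n : ℕ) (i : Fin 3) (hi : i ≠ 0) :
    Disjoint (interior (convexHull ℝ (Set.range (V n 0))))
      (interior (convexHull ℝ (Set.range (V n i)))) := by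
  obtain ⟨h1, h2, h3, h4, h5, h6, h7, h8⟩ := ineqs n
  have hQ := Q_sum n
  have hQ2 := Q_step n
  have hw : w n = a n + b n := rfl
  have hs : 0 < s n := by linarith
  have ha : 0 < a n := by linarith
  have hb : 0 < b n := by linarith
  have hsa := mul_pos hs ha
  have hsb := mul_pos hs hb
  refine sep _ _ _ _ (s n * Q n + a n * Q (n + 1)) (XX_pos n (s n) (a n) (by positivity)) ?_ ?_
  · refine hull_le _ _ _ _ fun k => ?_
    rw [← XX_eq]
    fin_cases k
    · show s n * X n (F n (Q n) (Q (n + 1))) + a n * X (n + 1) (F n (Q n) (Q (n + 1))) ≤ _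
      rw [X_F, X_F']
    · show s n * X n (F n (Q n) (-Q (n + 3))) + a n * X (n + 1) (F n (Q n) (-Q (n + 3))) ≤ _
      rw [X_F, X_F']
      nlinarith
    · show s n * X n (F n (Q n + a n) (-Q (n + 3))) +
        a n * X (n + 1) (F n (Q n + a n) (-Q (n + 3))) ≤ _
      rw [X_F, X_F']
      nlinarith
  · refine hull_ge _ _ _ _ fun k => ?_
    rw [← XX_eq]
    have key : ∀ x y : ℝ, s n * Q n + a n * Q (n + 1) ≤ s n * x + a n * y →
      s n * Q n + a n * Q (n + 1) ≤ s n * X n (F n x y) + a n * X (n + 1) (F n x y) := by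
      intro x y h
      rw [X_F, X_F']; exact h
    fin_cases i
    · exact absurd rfl hi
    · fin_cases k
      · exact key _ _ (by rw [hQ2, hw]; nlinarith)
      · exact key _ _ (by rw [hQ2, hw]; nlinarith)
      · exact key _ _ (by nlinarith)
    · fin_cases k
      · exact key _ _ (by rw [hQ2, hw]; nlinarith)
      · exact key _ _ (by nlinarith)
      · exact key _ _ (by nlinarith)

theorem disj_BC (n : ℕ) :
    Disjoint (interior (convexHull ℝ (Set.range (V n 1))))
      (interior (convexHull ℝ (Set.range (V n 2)))) := by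
  obtain ⟨h1, h2, h3, h4, h5, h6, h7, h8⟩ := ineqs n
  have hQ := Q_sum n
  have hQ2 := Q_step n
  have hw : w n = a n + b n := rfl
  have hs : 0 < s n := by linarith
  have ha : 0 < a n := by linarith
  have hb : 0 < b n := by linarith
  have hsa := mul_pos hs ha
  have hsb := mul_pos hs hb
  refine sep _ _ _ _ (-s n * Q (n + 4) + b n * Q (n + 1)) (XX_pos n (-s n) (b n) (by positivity))
    ?_ ?_
  · refine hull_le _ _ _ _ fun k => ?_
    rw [← XX_eq]
    have key : ∀ x y : ℝ, -s n * x + b n * y ≤ -s n * Q (n + 4) + b n * Q (n + 1) →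
      -s n * X n (F n x y) + b n * X (n + 1) (F n x y) ≤ -s n * Q (n + 4) + b n * Q (n + 1) := by
      intro x y h
      rw [X_F, X_F']; exact h
    fin_cases k
    · exact key _ _ (by nlinarith)
    · exact key _ _ (by nlinarith)
    · exact key _ _ (by rw [hQ2, hw]; nlinarith)
  · refine hull_ge _ _ _ _ fun k => ?_
    rw [← XX_eq]
    have key : ∀ x y : ℝ, -s n * Q (n + 4) + b n * Q (n + 1) ≤ -s n * x + b n * y →
      -s n * Q (n + 4) + b n * Q (n + 1) ≤ -s n * X n (F n x y) + b n * X (n + 1) (F n x y) := by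
      intro x y h
      rw [X_F, X_F']; exact h
    fin_cases k
    · exact key _ _ (by nlinarith)
    · exact key _ _ (by rw [hQ2, hw]; nlinarith)
    · exact key _ _ (by rw [hQ2, hw]; nlinarith)

theorem disj (t t' : ℕ × Fin 3) (h : t ≠ t') :
    Disjoint (interior (convexHull ℝ (Set.range (V t.1 t.2))))
      (interior (convexHull ℝ (Set.range (V t'.1 t'.2)))) := by
  rcases lt_trichotomy t.1 t'.1 with h1 | h1 | h1
  · exact disj_lt _ _ h1 _ _
  · obtain ⟨n, i⟩ := t
    obtain ⟨m, j⟩ := t'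
    simp only at h1
    subst h1
    have hij : i ≠ j := fun hc => h (by rw [hc])
    show Disjoint (interior (convexHull ℝ (Set.range (V n i))))
      (interior (convexHull ℝ (Set.range (V n j))))
    fin_cases i <;> fin_cases j
    · exact absurd rfl hij
    · exact disj_AB n 1 (by decide)
    · exact disj_AB n 2 (by decide)
    · exact (disj_AB n 1 (by decide)).symm
    · exact absurd rfl hij
    · exact disj_BC n
    · exact (disj_AB n 2 (by decide)).symm
    · exact (disj_BC n).symm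
    · exact absurd rfl hij
  · exact (disj_lt _ _ h1 _ _).symm

/-- Convex combinations. -/
theorem mem_hull (P : Fin 3 → Plane) (p : Plane) (x y z : ℝ) (hx : 0 ≤ x) (hy : 0 ≤ y)
    (hz : 0 ≤ z) (h1 : x + y + z = 1) (hp : p = x • P 0 + y • P 1 + z • P 2) :
    p ∈ convexHull ℝ (Set.range P) := by
  have hc := convex_convexHull ℝ (Set.range P)
  have hm : ∀ i, P i ∈ convexHull ℝ (Set.range P) := fun i =>
    subset_convexHull ℝ _ (Set.mem_range_self i)
  have := hc.sum_mem (t := Finset.univ) (w := ![x, y, z]) (z := P) ?_ ?_ (fun i _ => hm i)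
  · rw [Fin.sum_univ_three] at this
    rw [hp]
    exact this
  · intro i _
    fin_cases i
    · exact hx
    · exact hy
    · exact hz
  · rw [Fin.sum_univ_three]
    exact h1

theorem comb (n : ℕ) (x y z x0 y0 x1 y1 x2 y2 X0 Y0 : ℝ)
    (hX : X0 = x * x0 + y * x1 + z * x2) (hY : Y0 = x * y0 + y * y1 + z * y2) :
    F n X0 Y0 = x • F n x0 y0 + y • F n x1 y1 + z • F n x2 y2 := by
  ext i
  fin_cases i
  · show F n X0 Y0 0 = x * F n x0 y0 0 + y * F n x1 y1 0 + z * F n x2 y2 0
    rw [F_zero, F_zero, F_zero, F_zero, hX, hY]; ring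
  · show F n X0 Y0 1 = x * F n x0 y0 1 + y * F n x1 y1 1 + z * F n x2 y2 1
    rw [F_one, F_one, F_one, F_one, hX, hY]; ring

/-- The three tiles cover the rectangle. -/
theorem cover_rect (n : ℕ) (p : Plane) (h1 : Q n ≤ X n p) (h2 : X n p ≤ Q (n + 4))
    (h3 : -Q (n + 3) ≤ X (n + 1) p) (h4 : X (n + 1) p ≤ Q (n + 1)) :
    ∃ i, p ∈ convexHull ℝ (Set.range (V n i)) := by
  obtain ⟨g1, g2, g3, -, -, -, -, -⟩ := ineqs n
  have hQ := Q_sum n
  have hQ2 := Q_step n
  have hw : w n = a n + b n := rfl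
  have hs : 0 < s n := by linarith
  have ha : 0 < a n := by linarith
  have hb : 0 < b n := by linarith
  obtain ⟨u, hu⟩ : ∃ u, u = X n p - Q n := ⟨_, rfl⟩
  obtain ⟨v, hv⟩ : ∃ v, v = X (n + 1) p + Q (n + 3) := ⟨_, rfl⟩
  have hp := F_X n p
  have hXn : X n p = Q n + u := by rw [hu]; ring
  have hXn' : X (n + 1) p = -Q (n + 3) + v := by rw [hv]; ring
  rw [hXn, hXn'] at hp
  have hu0 : 0 ≤ u := by linarith
  have hv0 : 0 ≤ v := by linarith
  have hu1 : u ≤ a n + b n := by linarith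
  have hv1 : v ≤ s n := by linarith
  have hq1 : Q (n + 1) = s n - Q (n + 3) := by linarith
  by_cases hA : v / s n + u / a n ≤ 1
  · refine ⟨0, mem_hull _ _ (v / s n) (1 - v / s n - u / a n) (u / a n) (by positivity)
      (by linarith) (by positivity) (by ring) ?_⟩
    rw [hp]
    refine comb _ _ _ _ _ _ _ _ _ _ _ _ ?_ ?_
    · field_simp; ring
    · rw [hq1]; field_simp; ring
  · by_cases hB : v / s n + (a n + b n - u) / b n ≤ 1
    · refine ⟨1, mem_hull _ _ (v / s n) (1 - v / s n - (a n + b n - u) / b n)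
        ((a n + b n - u) / b n) (by positivity)
        (by linarith) (div_nonneg (by linarith) hb.le) (by ring) ?_⟩
      rw [hp]
      refine comb _ _ _ _ _ _ _ _ _ _ _ _ ?_ ?_
      · rw [hQ2, hw]; field_simp; ring
      · rw [hq1]; field_simp; ring
    · push Not at hA hB
      have hab : 0 < a n + b n := by linarith
      have e1 : a n * (s n - v) < s n * u := by
        rw [div_add_div _ _ hs.ne' ha.ne', lt_div_iff₀ (by positivity)] at hA
        nlinarith
      have e2 : b n * (s n - v) < s n * (a n + b n - u) := by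
        rw [div_add_div _ _ hs.ne' hb.ne', lt_div_iff₀ (by positivity)] at hB
        nlinarith
      refine ⟨2, mem_hull _ _ ((u * s n - a n * (s n - v)) / ((a n + b n) * s n)) (1 - v / s n)
        (((a n + b n - u) * s n - b n * (s n - v)) / ((a n + b n) * s n)) ?_ ?_ ?_ ?_ ?_⟩
      · exact div_nonneg (by nlinarith) (by positivity)
      · have : v / s n ≤ 1 := by rw [div_le_one hs]; exact hv1
        linarith
      · exact div_nonneg (by nlinarith) (by positivity)
      · field_simp; ring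
      · rw [hp]
        refine comb _ _ _ _ _ _ _ _ _ _ _ _ ?_ ?_
        · rw [hQ2, hw]; field_simp; ring
        · rw [hq1]; field_simp; ring

theorem exists_R (p : Plane) : ∃ n, p ∈ R n := by
  obtain ⟨n, hn⟩ := exists_nat_ge (|p 0| + |p 1| + 100)
  refine ⟨n, ?_⟩
  have hcs : ∀ m, |cs m| ≤ 1 := by
    intro m
    have := cs_sq m
    rw [← sq_le_one_iff_abs_le_one]
    nlinarith [sq_nonneg (cs (m + 1))]
  have hX : ∀ m, X m p ≤ |p 0| + |p 1| := by
    intro m
    have h1 : p 0 * cs m ≤ |p 0| := by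
      calc p 0 * cs m ≤ |p 0 * cs m| := le_abs_self _
        _ = |p 0| * |cs m| := abs_mul _ _
        _ ≤ |p 0| * 1 := by gcongr; exact hcs m
        _ = |p 0| := mul_one _
    have h2 : - (p 1 * cs (m + 1)) ≤ |p 1| := by
      calc - (p 1 * cs (m + 1)) ≤ |p 1 * cs (m + 1)| := neg_le_abs _
        _ = |p 1| * |cs (m + 1)| := abs_mul _ _
        _ ≤ |p 1| * 1 := by gcongr; exact hcs _
        _ = |p 1| := mul_one _
    rw [X]; linarith
  have hQ : ∀ m, n ≤ m → |p 0| + |p 1| ≤ Q m := by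
    intro m hm
    have h1 := Q_ge m
    have h2 : (n : ℝ) ≤ m := by exact_mod_cast hm
    have h3 : (0 : ℝ) ≤ n := Nat.cast_nonneg n
    have h4 : 100 ≤ (n : ℝ) := by
      have := abs_nonneg (p 0)
      have := abs_nonneg (p 1)
      linarith
    linarith
  exact ⟨(hX _).trans (hQ _ (by omega)), (hX _).trans (hQ _ (by omega)),
    (hX _).trans (hQ _ (by omega)), (hX _).trans (hQ _ (by omega))⟩

theorem cover (p : Plane) : ∃ n i, p ∈ convexHull ℝ (Set.range (V n i)) := by
  classical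
  have hex := exists_R p
  have hfind := Nat.find_spec hex
  rcases Nat.eq_zero_or_pos (Nat.find hex) with h0 | h0
  · rw [h0] at hfind
    obtain ⟨h1, h2, h3, h4⟩ := hfind
    refine ⟨0, cover_rect 0 p ?_ ?_ ?_ ?_⟩
    · rw [show (0 : ℕ) + 2 = 0 + 2 from rfl, X_two] at h3
      have e1 : Q 0 = -44 := by norm_num [Q]
      have e2 : Q (0 + 2) = 44 := by norm_num [Q]
      linarith
    · have e1 : Q 0 = -44 := by norm_num [Q]
      have := Q_step 0
      have e3 := (ineqs 0).2.2.2.2.2.2.2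
      linarith
    · rw [show (0 : ℕ) + 3 = 1 + 2 from rfl, X_two] at h4
      show -Q (0 + 3) ≤ X 1 p
      linarith
    · exact h2
  · obtain ⟨m, hm⟩ : ∃ m, Nat.find hex = m + 1 := ⟨Nat.find hex - 1, by omega⟩
    rw [hm] at hfind
    have hnot : p ∉ R m := Nat.find_min hex (by omega)
    obtain ⟨h1, h2, h3, h4⟩ := hfind
    refine ⟨m, cover_rect m p ?_ ?_ ?_ ?_⟩
    · by_contra hc
      push Not at hc
      exact hnot ⟨hc.le, h1, h2, h3⟩
    · rw [← X_four]; exact h4
    · have h5 : X (m + 3) p = - X (m + 1) p := X_two (m + 1) p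
      have h6 : X (m + 3) p ≤ Q (m + 3) := h3
      linarith
    · exact h1


/-- Proportional sides in some order, the third side being the longest one in both triangles. -/
theorem sim_inv (D D' : Fin 3 → Fin 3 → ℝ) (hD' : ∀ i j, D' i j = D' j i)
    (σ : Equiv.Perm (Fin 3)) (r : ℝ) (hr : 0 < r) (h : ∀ i j, D i j = r * D' (σ i) (σ j))
    (h1 : D 0 1 < D 2 0) (h2 : D 1 2 < D 2 0) (h1' : D' 0 1 < D' 2 0) (h2' : D' 1 2 < D' 2 0) :
    D 2 0 = r * D' 2 0 ∧ D 0 1 + D 1 2 = r * (D' 0 1 + D' 1 2) ∧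
      D 0 1 ^ 2 + D 1 2 ^ 2 = r ^ 2 * (D' 0 1 ^ 2 + D' 1 2 ^ 2) := by
  have e1 := h 0 1
  have e2 := h 1 2
  have e3 := h 2 0
  have n01 : σ 0 ≠ σ 1 := fun hc => absurd (σ.injective hc) (by decide)
  have n12 : σ 1 ≠ σ 2 := fun hc => absurd (σ.injective hc) (by decide)
  have n20 : σ 2 ≠ σ 0 := fun hc => absurd (σ.injective hc) (by decide)
  have s10 := hD' 1 0
  have s21 := hD' 2 1
  have s02 := hD' 0 2
  generalize σ 0 = x at *
  generalize σ 1 = y at *
  generalize σ 2 = z at *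
  have m1 : r * D' 0 1 < r * D' 2 0 := mul_lt_mul_of_pos_left h1' hr
  have m2 : r * D' 1 2 < r * D' 2 0 := mul_lt_mul_of_pos_left h2' hr
  fin_cases x <;> fin_cases y <;> fin_cases z <;>
    first
    | exact absurd rfl n01
    | exact absurd rfl n12
    | exact absurd rfl n20
    | skip
  all_goals simp only [Fin.zero_eta, Fin.mk_one, Fin.reduceFinMk] at e1 e2 e3
  all_goals try rw [s10] at e1
  all_goals try rw [s21] at e1
  all_goals try rw [s02] at e1
  all_goals try rw [s10] at e2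
  all_goals try rw [s21] at e2
  all_goals try rw [s02] at e2
  all_goals try rw [s10] at e3
  all_goals try rw [s21] at e3
  all_goals try rw [s02] at e3
  all_goals first
    | (exfalso; linarith)
    | exact ⟨e3, by rw [e1, e2]; ring, by rw [e1, e2]; ring⟩

/-- The parameter of a right tile: the cotangent of half of one of its angles. -/
noncomputable def tt (n : ℕ) (i : Fin 3) : ℝ :=
  if i = 0 then s n / 2 else if n = 0 then 3 else s n / 8

theorem tt_spec (n : ℕ) (i : Fin 3) (hi : i ≠ 2) : 3 ≤ tt n i ∧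
    (side n i 0 + side n i 1) * (tt n i ^ 2 + 1) = side n i 2 * (tt n i ^ 2 + 2 * tt n i - 1) := by
  fin_cases i
  · have e : tt n 0 = s n / 2 := by simp [tt]
    show 3 ≤ tt n 0 ∧ (s n + a n) * (tt n 0 ^ 2 + 1) = c n * (tt n 0 ^ 2 + 2 * tt n 0 - 1)
    rw [e]
    refine ⟨by have := s_ge n; linarith, ?_⟩
    cases n with
    | zero => norm_num [s, a, c]
    | succ n => rw [a, c]; ring
  · show 3 ≤ tt n 1 ∧ (s n + b n) * (tt n 1 ^ 2 + 1) = d n * (tt n 1 ^ 2 + 2 * tt n 1 - 1)
    cases n with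
    | zero =>
        have e : tt 0 1 = 3 := by simp [tt]
        rw [e]
        norm_num [s, b, d]
    | succ n =>
        have e : tt (n + 1) 1 = s (n + 1) / 8 := by simp [tt]
        rw [e, b, d]
        refine ⟨by have := s_ge' n; linarith, by ring⟩
  · exact absurd rfl hi

theorem tt_inj (n m : ℕ) (i j : Fin 3) (hi : i ≠ 2) (hj : j ≠ 2) (h : tt n i = tt m j) :
    n = m ∧ i = j := by
  have hA : ∀ n, tt n 0 = s n / 2 := fun n => by simp [tt]
  have hB : tt 0 1 = 3 := by simp [tt]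
  have hC : ∀ n, tt (n + 1) 1 = s (n + 1) / 8 := fun n => by simp [tt]
  have key : ∀ n m, tt n 0 ≠ tt m 1 := by
    intro n m h
    obtain ⟨k, hk⟩ := s_form n
    rw [hA, hk] at h
    cases m with
    | zero =>
        rw [hB] at h
        have : (8 * k + 4 : ℝ) = 6 := by linarith
        have : 8 * k + 4 = 6 := by exact_mod_cast this
        omega
    | succ m =>
        obtain ⟨l, hl⟩ := s_form (m + 1)
        rw [hC, hl] at h
        have : (4 * (8 * k + 4) : ℝ) = 8 * l + 4 := by linarith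
        have : 4 * (8 * k + 4) = 8 * l + 4 := by exact_mod_cast this
        omega
  have key2 : ∀ m, tt 0 1 ≠ tt (m + 1) 1 := by
    intro m h
    obtain ⟨l, hl⟩ := s_form (m + 1)
    rw [hB, hC, hl] at h
    have : (24 : ℝ) = 8 * l + 4 := by linarith
    have : 24 = 8 * l + 4 := by exact_mod_cast this
    omega
  fin_cases i <;> fin_cases j
  · refine ⟨s_mono.injective ?_, rfl⟩
    have h' : tt n 0 = tt m 0 := h
    rw [hA, hA] at h'
    linarith
  · exact absurd h (key _ _)
  · exact absurd rfl hj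
  · exact absurd h.symm (key _ _)
  · refine ⟨?_, rfl⟩
    have h' : tt n 1 = tt m 1 := h
    cases n with
    | zero =>
        cases m with
        | zero => rfl
        | succ m => exact absurd h' (key2 _)
    | succ n =>
        cases m with
        | zero => exact absurd h'.symm (key2 _)
        | succ m =>
            rw [hC, hC] at h'
            exact s_mono.injective (by linarith)
  · exact absurd rfl hj
  · exact absurd rfl hi
  · exact absurd rfl hi
  · exact absurd rfl hi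

theorem CC (n m : ℕ) (h : (d n ^ 2 + c n ^ 2) * w m ^ 2 = (d m ^ 2 + c m ^ 2) * w n ^ 2) :
    n = m := by
  have key : ∀ m, (d 0 ^ 2 + c 0 ^ 2) * w (m + 1) ^ 2 ≠ (d (m + 1) ^ 2 + c (m + 1) ^ 2) * w 0 ^ 2 := by
    intro m h
    have h0 : d 0 = 15 ∧ c 0 = 37 ∧ w 0 = 44 := by norm_num [d, c, w, a, b]
    rw [h0.1, h0.2.1, h0.2.2, w, a, b, c, d] at h
    have hs := s_ge' m
    have hu : 120 ≤ s (m + 1) ^ 2 / 16 - 1 := by nlinarith
    obtain ⟨u, hu'⟩ : ∃ u, u = s (m + 1) ^ 2 / 16 - 1 := ⟨_, rfl⟩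
    have hs2 : s (m + 1) ^ 2 = 16 * (u + 1) := by rw [hu']; ring
    rw [← hu'] at hu
    rw [hs2] at h
    nlinarith
  cases n with
  | zero =>
      cases m with
      | zero => rfl
      | succ m => exact absurd h (key m)
  | succ n =>
      cases m with
      | zero => exact absurd h.symm (key n)
      | succ m =>
          rw [w, w, a, a, b, b, c, c, d, d] at h
          have hs := s_ge' m
          have hs' := s_ge' n
          obtain ⟨u, hu⟩ : ∃ u, u = s (m + 1) ^ 2 / 16 - 1 := ⟨_, rfl⟩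
          obtain ⟨v, hv⟩ : ∃ v, v = s (n + 1) ^ 2 / 16 - 1 := ⟨_, rfl⟩
          have hu1 : 120 ≤ u := by rw [hu]; nlinarith
          have hv1 : 120 ≤ v := by rw [hv]; nlinarith
          have e1 : s (m + 1) ^ 2 = 16 * (u + 1) := by rw [hu]; ring
          have e2 : s (n + 1) ^ 2 = 16 * (v + 1) := by rw [hv]; ring
          rw [e1, e2] at h
          have h3 : (u - v) * (u * v + u + v) = 0 := by
            have : 1250 * ((u - v) * (u * v + u + v)) = 0 := by ring_nf; ring_nf at h; linarith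
            linarith
          have h4 : u * v + u + v ≠ 0 := by positivity
          have h5 : u = v := by
            rcases mul_eq_zero.1 h3 with h5 | h5
            · linarith
            · exact absurd h5 h4
          have h6 : s (n + 1) ^ 2 = s (m + 1) ^ 2 := by rw [e1, e2, h5]
          have h7 : s (n + 1) = s (m + 1) := by
            rwa [sq_eq_sq₀ (by linarith) (by linarith)] at h6
          exact s_mono.injective h7

/-- No two tiles are similar. -/
theorem not_sim (t t' : ℕ × Fin 3) (h : t ≠ t') (σ : Equiv.Perm (Fin 3)) (r : ℝ) (hr : 0 < r) :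
    ¬ ∀ i j, dist (V t.1 t.2 i) (V t.1 t.2 j) = r * dist (V t'.1 t'.2 (σ i)) (V t'.1 t'.2 (σ j)) := by
  intro hsim
  obtain ⟨n, i⟩ := t
  obtain ⟨m, j⟩ := t'
  simp only at hsim
  obtain ⟨d1, d2, d3⟩ := dists n i
  obtain ⟨d1', d2', d3'⟩ := dists m j
  obtain ⟨g1, g2, g3, g4, g5⟩ := side_ineq n i
  obtain ⟨g1', g2', g3', g4', g5'⟩ := side_ineq m j
  have hs := sim_inv (fun a b => dist (V n i a) (V n i b)) (fun a b => dist (V m j a) (V m j b))
    (fun a b => dist_comm _ _) σ r hr hsim (by rw [d1, d3]; exact g3)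
    (by rw [d2, d3]; exact g4) (by rw [d1', d3']; exact g3')
    (by rw [d2', d3']; exact g4')
  rw [d1, d2, d3, d1', d2', d3'] at hs
  obtain ⟨e1, e2, e3⟩ := hs
  have right : ∀ n (i : Fin 3), i ≠ 2 → side n i 0 ^ 2 + side n i 1 ^ 2 = side n i 2 ^ 2 := by
    intro n i hi
    fin_cases i
    · exact pyth_a n
    · exact pyth_b n
    · exact absurd rfl hi
  have obtuse : ∀ n, side n 2 0 ^ 2 + side n 2 1 ^ 2 < side n 2 2 ^ 2 := by
    intro n
    show d n ^ 2 + c n ^ 2 < w n ^ 2
    cases n with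
    | zero => norm_num [d, c, w, a, b]
    | succ n =>
        rw [w, a, b, c, d]
        have hs := s_ge' n
        have hu : 120 ≤ s (n + 1) ^ 2 / 16 - 1 := by nlinarith
        obtain ⟨u, hu'⟩ : ∃ u, u = s (n + 1) ^ 2 / 16 - 1 := ⟨_, rfl⟩
        have hs2 : s (n + 1) ^ 2 = 16 * (u + 1) := by rw [hu']; ring
        rw [← hu'] at hu
        rw [hs2]
        nlinarith
  by_cases hi : i = 2
  · by_cases hj : j = 2
    · subst hi hj
      have h1 : (d n ^ 2 + c n ^ 2) * w m ^ 2 = (d m ^ 2 + c m ^ 2) * w n ^ 2 := by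
        have e1' : w n = r * w m := e1
        have e3' : d n ^ 2 + c n ^ 2 = r ^ 2 * (d m ^ 2 + c m ^ 2) := e3
        rw [e3', e1']; ring
      exact h (by rw [CC n m h1])
    · have h1 := right m j hj
      have h2 := obtuse n
      rw [hi] at e1 e3
      rw [e3, h1, e1] at h2
      nlinarith
  · by_cases hj : j = 2
    · have h1 := right n i hi
      have h2 := obtuse m
      rw [hj] at e1 e3
      rw [h1, e1] at e3
      have : 0 < r ^ 2 := by positivity
      nlinarith
    · obtain ⟨p1, p2⟩ := tt_spec n i hi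
      obtain ⟨q1, q2⟩ := tt_spec m j hj
      have hz : 0 < side n i 2 := by linarith
      have hz' : 0 < side m j 2 := by linarith
      obtain ⟨x, hx⟩ : ∃ x, x = tt n i := ⟨_, rfl⟩
      obtain ⟨y, hy⟩ : ∃ y, y = tt m j := ⟨_, rfl⟩
      rw [← hx] at p1 p2
      rw [← hy] at q1 q2
      have h1 : (side n i 0 + side n i 1) * side m j 2 = (side m j 0 + side m j 1) * side n i 2 := by
        rw [e2, e1]; ring
      have h2 : side n i 2 * side m j 2 * ((x ^ 2 + 2 * x - 1) * (y ^ 2 + 1)) =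
          side n i 2 * side m j 2 * ((y ^ 2 + 2 * y - 1) * (x ^ 2 + 1)) := by
        linear_combination (-(side m j 2) * (y ^ 2 + 1)) * p2 +
          (side n i 2 * (x ^ 2 + 1)) * q2 + (x ^ 2 + 1) * (y ^ 2 + 1) * h1
      have h3 := mul_left_cancel₀ (by positivity) h2
      have h4 : (y - x) * ((x - 1) * (y - 1) - 2) = 0 := by linear_combination (1 / 2) * h3
      have h5 : (x - 1) * (y - 1) - 2 ≠ 0 := by
        have : 0 < (x - 1) * (y - 1) - 2 := by nlinarith
        exact this.ne'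
      have h6 : y = x := by
        rcases mul_eq_zero.1 h4 with h6 | h6
        · linarith
        · exact absurd h6 h5
      have h7 : tt n i = tt m j := by rw [← hx, ← hy, h6]
      obtain ⟨h8, h9⟩ := tt_inj n m i j hi hj h7
      exact h (by rw [h8, h9])

/-- The closed triangle (with interior) spanned by the three corners of `T`. -/
def region (T : Affine.Triangle ℝ Plane) : Set Plane := convexHull ℝ (Set.range T.points)

/-- All side lengths of `T` are positive integers. -/
def IntegerSided (T : Affine.Triangle ℝ Plane) : Prop :=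
  ∀ i j, i ≠ j → ∃ n : ℕ, 0 < n ∧ dist (T.points i) (T.points j) = n

/-- `T` and `T'` are similar: for some numbering of the corners of `T'` the side lengths are
proportional. -/
def AreSimilar (T T' : Affine.Triangle ℝ Plane) : Prop :=
  ∃ (σ : Equiv.Perm (Fin 3)) (r : ℝ), 0 < r ∧
    ∀ i j, dist (T.points i) (T.points j) = r * dist (T'.points (σ i)) (T'.points (σ j))

/-- There is a tiling of the plane by integer-sided triangles, no two of which are similar. -/
theorem result : ∃ (ι : Type) (T : ι → Affine.Triangle ℝ Plane),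
    (⋃ t, region (T t)) = Set.univ ∧
    (∀ t t', t ≠ t' → Disjoint (interior (region (T t))) (interior (region (T t')))) ∧
    (∀ t, IntegerSided (T t)) ∧
    (∀ t t', t ≠ t' → ¬ AreSimilar (T t) (T t')) := by
  refine ⟨ℕ × Fin 3, T, ?_, ?_, ?_, ?_⟩
  · rw [Set.eq_univ_iff_forall]
    intro p
    obtain ⟨n, i, h⟩ := cover p
    exact Set.mem_iUnion.2 ⟨(n, i), h⟩
  · exact disj
  · rintro ⟨n, i⟩
    obtain ⟨d1, d2, d3⟩ := dists n i
    obtain ⟨g1, g2, g3, g4, g5⟩ := side_ineq n i
    obtain ⟨h1, h2, h3, h4, h5, h6⟩ := nat_sides n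
    have key : (∃ m : ℕ, side n i 0 = m) ∧ (∃ m : ℕ, side n i 1 = m) ∧
        (∃ m : ℕ, side n i 2 = m) := by
      fin_cases i
      · exact ⟨h1, h2, h4⟩
      · exact ⟨h1, h3, h5⟩
      · exact ⟨h5, h4, h6⟩
    obtain ⟨⟨m1, k1⟩, ⟨m2, k2⟩, ⟨m3, k3⟩⟩ := key
    have p1 : 0 < m1 := by have : (0 : ℝ) < m1 := by rw [← k1]; exact g1
                           exact_mod_cast this
    have p2 : 0 < m2 := by have : (0 : ℝ) < m2 := by rw [← k2]; exact g2
                           exact_mod_cast this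
    have p3 : 0 < m3 := by have : (0 : ℝ) < m3 := by rw [← k3]; linarith
                           exact_mod_cast this
    rw [k1] at d1
    rw [k2] at d2
    rw [k3] at d3
    intro x y hxy
    show ∃ n_1 : ℕ, 0 < n_1 ∧ dist (V n i x) (V n i y) = n_1
    fin_cases x <;> fin_cases y
    · exact absurd rfl hxy
    · exact ⟨m1, p1, d1⟩
    · exact ⟨m3, p3, by rw [dist_comm]; exact d3⟩
    · exact ⟨m1, p1, by rw [dist_comm]; exact d1⟩
    · exact absurd rfl hxy
    · exact ⟨m2, p2, d2⟩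
    · exact ⟨m3, p3, d3⟩
    · exact ⟨m2, p2, by rw [dist_comm]; exact d2⟩
    · exact absurd rfl hxy
  · rintro t t' h ⟨σ, r, hr, hs⟩
    exact not_sim t t' h σ r hr hs

end Pool.Agent.Results.MP_0d7d47_co.SpiralTiling
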